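import Pool.Agent.H66.SYM.Basic

/-!
# The Hilbert space of a mean
-/

namespace Pool.H66.SYM

open Filter Topology UniformSpace Completion

noncomputable section

theorem AN1_bd_mul {V : Type} {f g : V → ℂ} (hf : Bd f) (hg : Bd g) : Bd (f * g) := by
  obtain ⟨C, hC⟩ := hf
  obtain ⟨D, hD⟩ := hg
  refine ⟨C * D, fun v => ?_⟩
  rw [Pi.mul_apply, norm_mul]
  exact mul_le_mul (hC v) (hD v) (norm_nonneg _) ((norm_nonneg _).trans (hC v))

theorem AN1_bd_add {V : Type} {f g : V → ℂ} (hf : Bd f) (hg : Bd g) : Bd (f + g) := by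
  obtain ⟨C, hC⟩ := hf
  obtain ⟨D, hD⟩ := hg
  exact ⟨C + D, fun v => (norm_add_le _ _).trans (add_le_add (hC v) (hD v))⟩

theorem AN1_bd_smul {V : Type} {f : V → ℂ} (a : ℂ) (hf : Bd f) : Bd (fun v => a * f v) := by
  obtain ⟨C, hC⟩ := hf
  refine ⟨‖a‖ * C, fun v => ?_⟩
  rw [norm_mul]
  exact mul_le_mul_of_nonneg_left (hC v) (norm_nonneg _)

theorem AN1_bd_one {V : Type} : Bd (1 : V → ℂ) := ⟨1, fun v => by simp⟩

theorem AN1_bd_cj {V : Type} {f : V → ℂ} (hf : Bd f) : Bd (cj f) := by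
  obtain ⟨C, hC⟩ := hf
  exact ⟨C, fun v => by simpa [cj] using hC v⟩

/-- The bounded functions. -/
def AN1_sub (V : Type) : Submodule ℂ (V → ℂ) where
  carrier := {f | Bd f}
  add_mem' := fun hf hg => AN1_bd_add hf hg
  zero_mem' := ⟨0, fun v => by simp⟩
  smul_mem' := fun a _ hf => AN1_bd_smul a hf

/-- The space of bounded functions with the seminorm of the mean. -/
def AN1_B {V : Type} (_ : Mean V) : Type := AN1_sub V

variable {V : Type} (μ : Mean V)

instance : AddCommGroup (AN1_B μ) := inferInstanceAs (AddCommGroup (AN1_sub V))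
instance : Module ℂ (AN1_B μ) := inferInstanceAs (Module ℂ (AN1_sub V))

/-- The underlying function. -/
def AN1_fn : AN1_B μ →ₗ[ℂ] (V → ℂ) := (AN1_sub V).subtype

theorem AN1_fn_bd (x : AN1_B μ) : Bd (AN1_fn μ x) := x.2

theorem AN1_fn_inj {x y : AN1_B μ} (h : AN1_fn μ x = AN1_fn μ y) : x = y := Subtype.ext h

/-- Constructor. -/
def AN1_mk (f : V → ℂ) (hf : Bd f) : AN1_B μ := ⟨f, hf⟩

theorem AN1_fn_mk (f : V → ℂ) (hf : Bd f) : AN1_fn μ (AN1_mk μ f hf) = f := rfl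

/-- The pre-inner product. -/
abbrev AN1_core : PreInnerProductSpace.Core ℂ (AN1_B μ) where
  inner a b := μ.m (cj (AN1_fn μ a) * AN1_fn μ b)
  conj_inner_symm x y := by
    rw [← μ.conj _ (AN1_bd_mul (AN1_bd_cj (AN1_fn_bd μ y)) (AN1_fn_bd μ x))]
    congr 1
    ext v
    simp [cj, mul_comm]
  re_inner_nonneg x := by
    obtain ⟨r, hr, h⟩ := μ.nonneg (cj (AN1_fn μ x) * AN1_fn μ x)
      (AN1_bd_mul (AN1_bd_cj (AN1_fn_bd μ x)) (AN1_fn_bd μ x)) (fun v =>
        ⟨‖AN1_fn μ x v‖ ^ 2, by positivity, by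
          simp only [cj, Pi.mul_apply]
          rw [Complex.conj_mul']
          push_cast
          rfl⟩)
    rw [h]
    simpa using hr
  add_left x y z := by
    rw [← μ.add _ _ (AN1_bd_mul (AN1_bd_cj (AN1_fn_bd μ x)) (AN1_fn_bd μ z))
      (AN1_bd_mul (AN1_bd_cj (AN1_fn_bd μ y)) (AN1_fn_bd μ z))]
    congr 1
    ext v
    simp [cj, add_mul]
  smul_left x y r := by
    rw [← μ.smul _ _ (AN1_bd_mul (AN1_bd_cj (AN1_fn_bd μ x)) (AN1_fn_bd μ y))]
    congr 1
    ext v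
    simp [cj, mul_assoc]

instance : SeminormedAddCommGroup (AN1_B μ) :=
  InnerProductSpace.Core.toSeminormedAddCommGroup (c := AN1_core μ)
instance : InnerProductSpace ℂ (AN1_B μ) := InnerProductSpace.ofCore (AN1_core μ)

theorem AN1_inner (x y : AN1_B μ) : inner ℂ x y = μ.m (cj (AN1_fn μ x) * AN1_fn μ y) := rfl

theorem AN1_norm (x : AN1_B μ) : ((‖x‖ ^ 2 : ℝ) : ℂ) = μ.m (cj (AN1_fn μ x) * AN1_fn μ x) := by
  rw [← AN1_inner, inner_self_eq_norm_sq_to_K]
  push_cast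
  rfl

theorem AN1_bound (f : V → ℂ) (hf : Bd f) : ∃ C : ℝ, 0 ≤ C ∧ ∀ v, ‖f v‖ ≤ C := by
  obtain ⟨C, hC⟩ := hf
  exact ⟨max C 0, le_max_right _ _, fun v => (hC v).trans (le_max_left _ _)⟩

/-- Multiplication by a bounded function. -/
def AN1_lin (f : V → ℂ) (hf : Bd f) : AN1_B μ →ₗ[ℂ] AN1_B μ where
  toFun x := AN1_mk μ (f * AN1_fn μ x) (AN1_bd_mul hf (AN1_fn_bd μ x))
  map_add' x y := by
    apply AN1_fn_inj
    simp [AN1_fn_mk, mul_add]
  map_smul' a x := by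
    apply AN1_fn_inj
    simp [AN1_fn_mk]

theorem AN1_lin_norm (f : V → ℂ) (hf : Bd f) (C : ℝ) (hC0 : 0 ≤ C) (hC : ∀ v, ‖f v‖ ≤ C)
    (x : AN1_B μ) : ‖AN1_lin μ f hf x‖ ≤ C * ‖x‖ := by
  have hx := AN1_fn_bd μ x
  have h1 := AN1_norm μ x
  have h2 := AN1_norm μ (AN1_lin μ f hf x)
  have h3 : AN1_fn μ (AN1_lin μ f hf x) = f * AN1_fn μ x := rfl
  rw [h3] at h2
  set g : V → ℂ := cj (AN1_fn μ x) * AN1_fn μ x with hg
  set g' : V → ℂ := cj (f * AN1_fn μ x) * (f * AN1_fn μ x) with hg'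
  have hgb : Bd g := AN1_bd_mul (AN1_bd_cj hx) hx
  have hgb' : Bd g' := AN1_bd_mul (AN1_bd_cj (AN1_bd_mul hf hx)) (AN1_bd_mul hf hx)
  obtain ⟨r, hr, h4⟩ := μ.nonneg ((fun v => ((C ^ 2 : ℝ) : ℂ) * g v) + fun v => (-1 : ℂ) * g' v)
    (AN1_bd_add (AN1_bd_smul _ hgb) (AN1_bd_smul _ hgb')) (fun v => by
      refine ⟨C ^ 2 * ‖AN1_fn μ x v‖ ^ 2 - ‖f v‖ ^ 2 * ‖AN1_fn μ x v‖ ^ 2, ?_, ?_⟩
      · have h5 : ‖f v‖ ^ 2 ≤ C ^ 2 := pow_le_pow_left₀ (norm_nonneg _) (hC v) 2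
        nlinarith [sq_nonneg ‖AN1_fn μ x v‖]
      · simp only [hg, hg', cj, Pi.mul_apply, Pi.add_apply]
        rw [Complex.conj_mul', Complex.conj_mul']
        simp only [norm_mul]
        push_cast
        ring)
  rw [μ.add _ _ (AN1_bd_smul _ hgb) (AN1_bd_smul _ hgb'), μ.smul _ _ hgb, μ.smul _ _ hgb',
    ← h1, ← h2] at h4
  have h5 : C ^ 2 * ‖x‖ ^ 2 - ‖AN1_lin μ f hf x‖ ^ 2 = r := by
    have : (((C ^ 2 * ‖x‖ ^ 2 - ‖AN1_lin μ f hf x‖ ^ 2 : ℝ)) : ℂ) = (r : ℂ) := by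
      rw [← h4]
      push_cast
      ring
    exact_mod_cast this
  refine le_of_sq_le_sq ?_ (by positivity)
  rw [mul_pow]
  linarith

/-- Multiplication by a bounded function as a continuous linear map. -/
def AN1_clm (f : V → ℂ) (hf : Bd f) : AN1_B μ →L[ℂ] AN1_B μ :=
  (AN1_lin μ f hf).mkContinuous (AN1_bound f hf).choose fun x =>
    AN1_lin_norm μ f hf _ (AN1_bound f hf).choose_spec.1 (AN1_bound f hf).choose_spec.2 x

theorem AN1_clm_fn (f : V → ℂ) (hf : Bd f) (x : AN1_B μ) :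
    AN1_fn μ (AN1_clm μ f hf x) = f * AN1_fn μ x := rfl

open Classical in
/-- The multiplication operators. -/
def AN1_T (f : V → ℂ) : Completion (AN1_B μ) →L[ℂ] Completion (AN1_B μ) :=
  if h : Bd f then (AN1_clm μ f h).completion else 0

theorem AN1_T_coe (f : V → ℂ) (hf : Bd f) (x : AN1_B μ) :
    AN1_T μ f (x : Completion (AN1_B μ)) = ((AN1_clm μ f hf x : AN1_B μ) :
      Completion (AN1_B μ)) := by
  unfold AN1_T
  rw [dif_pos hf]
  simp

theorem AN1_smul (a : ℂ) (f : V → ℂ) (hf : Bd f) :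
    AN1_T μ (fun v => a * f v) = a • AN1_T μ f := by
  refine ContinuousLinearMap.ext fun x => ?_
  refine Completion.induction_on x
    (isClosed_eq (AN1_T μ _).continuous (a • AN1_T μ f).continuous) fun x => ?_
  have h1 : (a • AN1_T μ f) (x : Completion (AN1_B μ)) =
      a • (AN1_T μ f (x : Completion (AN1_B μ))) := rfl
  rw [h1, AN1_T_coe μ _ (AN1_bd_smul a hf), AN1_T_coe μ _ hf, ← Completion.coe_smul]
  congr 1
  apply AN1_fn_inj
  rw [map_smul, AN1_clm_fn, AN1_clm_fn]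
  ext v
  simp [mul_assoc]

theorem s_AN1 : S_AN1 := by
  intro V μ
  refine ⟨{
    H := Completion (AN1_B μ)
    T := AN1_T μ
    e := ((AN1_mk μ 1 AN1_bd_one : AN1_B μ) : Completion (AN1_B μ))
    T_one := ?_
    T_add := ?_
    T_mul := ?_
    T_smul := ?_
    T_adj := ?_
    inner_e := ?_
    dense := ?_ }⟩
  · ext x
    induction x using Completion.induction_on with
    | hp => exact isClosed_eq (by fun_prop) (by fun_prop)
    | ih x =>
      rw [AN1_T_coe μ 1 AN1_bd_one]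
      rw [one_apply_eq_self]
      congr 1
      apply AN1_fn_inj
      rw [AN1_clm_fn, one_mul]
  · intro f g hf hg
    ext x
    induction x using Completion.induction_on with
    | hp => exact isClosed_eq (by fun_prop) (by fun_prop)
    | ih x =>
      rw [add_apply, AN1_T_coe μ _ (AN1_bd_add hf hg), AN1_T_coe μ _ hf,
        AN1_T_coe μ _ hg, ← Completion.coe_add]
      congr 1
      apply AN1_fn_inj
      rw [map_add, AN1_clm_fn, AN1_clm_fn, AN1_clm_fn, add_mul]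
  · intro f g hf hg
    ext x
    induction x using Completion.induction_on with
    | hp => exact isClosed_eq (by fun_prop) (by fun_prop)
    | ih x =>
      rw [mul_apply_eq_comp, AN1_T_coe μ _ (AN1_bd_mul hf hg), AN1_T_coe μ _ hg,
        AN1_T_coe μ _ hf]
      congr 1
      apply AN1_fn_inj
      rw [AN1_clm_fn, AN1_clm_fn, AN1_clm_fn, mul_assoc]
  · exact fun a f hf => AN1_smul μ a f hf
  · intro f hf x y
    induction x, y using Completion.induction_on₂ with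
    | hp => exact isClosed_eq (by fun_prop) (by fun_prop)
    | ih x y =>
      rw [AN1_T_coe μ _ hf, AN1_T_coe μ _ (AN1_bd_cj hf), Completion.inner_coe,
        Completion.inner_coe, AN1_inner, AN1_inner, AN1_clm_fn, AN1_clm_fn]
      congr 1
      ext v
      simp only [cj, Pi.mul_apply, map_mul]
      ring
  · intro f g hf hg
    rw [AN1_T_coe μ _ hf, AN1_T_coe μ _ hg, Completion.inner_coe, AN1_inner, AN1_clm_fn,
      AN1_clm_fn, AN1_fn_mk, mul_one, mul_one]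
  · refine Completion.denseRange_coe.mono ?_
    rintro _ ⟨x, rfl⟩
    refine ⟨AN1_fn μ x, AN1_fn_bd μ x, ?_⟩
    rw [AN1_T_coe μ _ (AN1_fn_bd μ x)]
    congr 1
    apply AN1_fn_inj
    rw [AN1_clm_fn, AN1_fn_mk, mul_one]

end

end Pool.H66.SYM
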