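import Pool.Agent.H66.SYM.Basic

/-!
# Rankin-Selberg poles
-/

namespace Pool.H66.SYM

open Filter Topology

theorem RSP_one (M : Multiset ℂ) (h : ∀ n : ℕ, (M.map fun a => a ^ n).sum = (M.card : ℂ)) :
    ∀ a ∈ M, a = 1 := by
  classical
  have h1 : ∀ f : Polynomial ℂ, (M.map fun a => f.eval a).sum = (M.card : ℂ) * f.eval 1 := by
    intro f
    induction f using Polynomial.induction_on' with
    | add f g hf hg =>
      simp only [Polynomial.eval_add]
      rw [Multiset.sum_map_add, hf, hg]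
      ring
    | monomial n c =>
      simp only [Polynomial.eval_monomial]
      rw [Multiset.sum_map_mul_left, h]
      ring
  have h2 := h1 (∏ e ∈ M.toFinset.erase 1, (Polynomial.X - Polynomial.C e))
  rw [Finset.sum_multiset_map_count, Finset.sum_eq_single (1 : ℂ)] at h2
  · have h3 : (∏ e ∈ M.toFinset.erase 1, (Polynomial.X - Polynomial.C e)).eval (1 : ℂ) ≠ 0 := by
      rw [Polynomial.eval_prod, Finset.prod_ne_zero_iff]
      intro e he
      simp only [Polynomial.eval_sub, Polynomial.eval_X, Polynomial.eval_C]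
      exact sub_ne_zero.2 (Finset.ne_of_mem_erase he).symm
    rw [nsmul_eq_mul] at h2
    have h4 := mul_right_cancel₀ h3 h2
    have h5 : M.count 1 = M.card := by exact_mod_cast h4
    intro a ha
    exact ((Multiset.count_eq_card.1 h5) a ha).symm
  · intro e he he1
    rw [Polynomial.eval_prod, Finset.prod_eq_zero (Finset.mem_erase.2 ⟨he1, he⟩), smul_zero]
    simp
  · intro h0
    rw [Multiset.count_eq_zero_of_notMem (by simpa using h0)]
    simp

theorem RSP_bind {α : Type} {R : Type} [AddCommMonoid R] (P Q : Multiset α) (f : α × α → R) :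
    ((P.bind fun w => Q.map fun w' => (w, w')).map f).sum =
      (P.map fun w => (Q.map fun w' => f (w, w')).sum).sum := by
  rw [Multiset.map_bind, Multiset.sum_bind]
  simp [Multiset.map_map]

theorem RSP_le {α : Type} (M : Multiset α) (f : α → ℤ) (h : ∀ a ∈ M, f a ≤ 0) (a₀ : α)
    (h0 : a₀ ∈ M) (h1 : f a₀ ≤ -1) : (M.map f).sum ≤ -1 := by
  obtain ⟨N, rfl⟩ := Multiset.exists_cons_of_mem h0
  rw [Multiset.map_cons, Multiset.sum_cons]
  have h2 : (N.map f).sum ≤ 0 := by
    have := Multiset.sum_le_card_nsmul (N.map f) 0 (by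
      intro x hx
      obtain ⟨a, ha, rfl⟩ := Multiset.mem_map.1 hx
      exact h a (Multiset.mem_cons_of_mem ha))
    simpa using this
  linarith

theorem RSP_dual (hBAS : S_BAS) (A : Aut) (σ : A.Cusp) (p : A.Pt) :
    A.tr (A.dual σ) p = A.tr σ (p.pow (-1)) := by
  obtain ⟨-, -, hpow, -, hdual, -⟩ := hBAS A
  unfold AData.tr
  rw [hdual, hpow]
  simp

theorem RSP_pow_inv (hBAS : S_BAS) (A : Aut) (σ : A.Cusp) (p : A.Pt) :
    A.tr (A.dual (A.dual σ)) p = A.tr σ p := by
  obtain ⟨-, -, hpow, -, hdual, -⟩ := hBAS A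
  unfold AData.tr
  rw [hdual, hdual, Multiset.map_map]
  simp

theorem RSP_ext (hIND : S_IND) (A : Aut) (w w' : A.Cusp) (h : ∀ p, A.tr w p = A.tr w' p) :
    w = w' := by
  have h1 := (hIND A).1 {w} {w'} (by
    intro v n _
    simpa [AData.eigs, AData.tr] using h ((A.frob v).pow n))
  simpa using h1

theorem RSP_nrm (hBAS : S_BAS) (A : Aut) (y : ℝ) (σ : A.Cusp) (p : A.Pt) :
    A.tr (A.mul (A.nrm y) σ) p = ((A.ab p.v p.g ^ y : ℝ) : ℂ) * A.tr σ p := by
  obtain ⟨-, -, -, -, -, hmul, -, hnrm, -⟩ := hBAS A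
  unfold AData.tr
  rw [hmul _ _ _ (A.deg_nrm y), Multiset.sum_map_mul_left]
  unfold AData.tr
  rw [hnrm]
  simp

theorem RSP_mul (hBAS : S_BAS) (hIND : S_IND) (A : Aut) (x y : ℝ) (σ : A.Cusp) :
    A.mul (A.nrm x) (A.mul (A.nrm y) σ) = A.mul (A.nrm (x + y)) σ := by
  refine RSP_ext hIND A _ _ fun p => ?_
  rw [RSP_nrm hBAS, RSP_nrm hBAS, RSP_nrm hBAS, Real.rpow_add (A.ab_pos _ _)]
  push_cast
  ring

theorem RSP_mul0 (hBAS : S_BAS) (hIND : S_IND) (A : Aut) (σ : A.Cusp) :
    A.mul (A.nrm 0) σ = σ := by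
  refine RSP_ext hIND A _ _ fun p => ?_
  rw [RSP_nrm hBAS]
  simp

/-- The eigenvalues at `t` of the constituents of `σ ⊠ dual σ'`. -/
theorem RSP_S (hBAS : S_BAS) (A : Aut) (v : A.Pl) (t : A.W v) (σ σ' : A.Cusp)
    (h : ∀ a ∈ A.eig σ ⟨v, t, 1⟩, a = 1) (h' : ∀ a ∈ A.eig σ' ⟨v, t, 1⟩, a = 1)
    (S : Multiset A.Cusp) (hS : ∀ p, (A.eigs S p).sum = A.tr σ p * A.tr (A.dual σ') p) :
    ∀ y ∈ S, ∀ a ∈ A.eig y ⟨v, t, 1⟩, a = 1 := by
  obtain ⟨hcard, -, hpow, -, hdual, -⟩ := hBAS A
  have h1 : ∀ a ∈ A.eigs S ⟨v, t, 1⟩, a = 1 := by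
    have e1 : ∀ z : A.Cusp, (∀ a ∈ A.eig z ⟨v, t, 1⟩, a = 1) → ∀ n : ℕ,
        A.tr z (AData.Pt.pow ⟨v, t, 1⟩ n) = A.deg z := by
      intro z hz n
      unfold AData.tr
      rw [hpow]
      have : (A.eig z ⟨v, t, 1⟩).map (fun a => a ^ (n : ℤ)) =
          (A.eig z ⟨v, t, 1⟩).map fun _ => (1 : ℂ) :=
        Multiset.map_congr rfl fun a ha => by rw [hz a ha, one_zpow]
      rw [this]
      simp [hcard]
    have e2 : ∀ a ∈ A.eig (A.dual σ') ⟨v, t, 1⟩, a = 1 := by
      intro a ha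
      rw [hdual, Multiset.mem_map] at ha
      obtain ⟨b, hb, rfl⟩ := ha
      rw [h' b hb, inv_one]
    have e3 : ∀ n : ℕ, ((A.eigs S ⟨v, t, 1⟩).map fun a => a ^ n).sum =
        (A.deg σ : ℂ) * A.deg (A.dual σ') := by
      intro n
      rw [← e1 σ h n, ← e1 _ e2 n, ← hS]
      clear hS
      induction S using Multiset.induction_on with
      | empty => simp [AData.eigs]
      | cons z S ih =>
        rw [eigs_cons, eigs_cons, Multiset.map_add, Multiset.sum_add, Multiset.sum_add, ih, hpow]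
        simp
    refine RSP_one _ fun n => ?_
    rw [e3 n, ← e3 0]
    simp
  intro y hy a ha
  exact h1 a ((mem_eigs A.toAData).2 ⟨y, hy, ha⟩)

open Classical in
/-- The main inequality. -/
theorem RSP_main (hBAS : S_BAS) (hTEN : S_TEN) (A : Aut) (hsym : A.HasSym 2) (v : A.Pl)
    (t : A.W v) (hab : A.ab v t = 1) (σ σ' x x' : A.Cusp)
    (h : ∀ a ∈ A.eig σ ⟨v, t, 1⟩, a = 1) (h' : ∀ a ∈ A.eig σ' ⟨v, t, 1⟩, a = 1)
    (T : Multiset A.Cusp) (hT : ∀ p, (A.eigs T p).sum = A.tr x p * A.tr (A.dual x') p)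
    (hT1 : ∀ ρ ∈ T, ρ ≠ A.one → ∃ a ∈ A.eig ρ ⟨v, t, 1⟩, a ≠ 1) (P P' : Multiset A.Cusp)
    (hP : ∀ p, (A.eigs P p).sum = A.tr σ p * A.tr x p)
    (hP' : ∀ p, (A.eigs P' p).sum = A.tr σ' p * A.tr x' p) (X : ℝ) :
    (T.count A.one : ℤ) * A.ord σ σ' X ≤
      ((P.bind fun w => P'.map fun w' => (w, w')).map fun c => A.ord c.1 c.2 X).sum := by
  have hbas := hBAS A
  obtain ⟨hcard, hne, hpow, hone, hdual, hmul, hdet, hnrm, -⟩ := hbas
  obtain ⟨S, hS⟩ := hTEN A hsym {σ} {A.dual σ'}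
  have hS' : ∀ p, (A.eigs S p).sum = A.tr σ p * A.tr (A.dual σ') p := by
    intro p
    rw [hS p, eigs_singleton, eigs_singleton]
    rfl
  have hS1 := RSP_S hBAS A v t σ σ' h h' S hS'
  set J : Multiset (A.Cusp × A.Cusp) := T.count A.one • {(σ, σ')} +
    (T.filter fun ρ => ¬ ρ = A.one).bind fun ρ => S.map fun y => (y, A.dual ρ) with hJ
  have hsum : ∀ p, ((P.bind fun w => P'.map fun w' => (w, w')).map
      fun c => A.tr c.1 p * A.tr (A.dual c.2) p).sum =
      (J.map fun c => A.tr c.1 p * A.tr (A.dual c.2) p).sum := by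
    intro p
    rw [RSP_bind]
    have e1 : ∀ w : A.Cusp, (P'.map fun w' => A.tr w p * A.tr (A.dual w') p).sum =
        A.tr w p * (A.tr (A.dual σ') p * A.tr (A.dual x') p) := by
      intro w
      rw [Multiset.sum_map_mul_left]
      congr 1
      rw [RSP_dual hBAS, RSP_dual hBAS, ← hP', sum_eigs]
      congr 1
      exact Multiset.map_congr rfl fun w' _ => RSP_dual hBAS A w' p
    simp only [e1]
    rw [Multiset.sum_map_mul_right, ← sum_eigs, hP, hJ, Multiset.map_add, Multiset.sum_add,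
      Multiset.map_nsmul, Multiset.sum_nsmul, Multiset.map_bind, Multiset.sum_bind]
    have e2 : ∀ ρ : A.Cusp, (((S.map fun y => (y, A.dual ρ))).map
        fun c : A.Cusp × A.Cusp => A.tr c.1 p * A.tr (A.dual c.2) p).sum =
        (A.tr σ p * A.tr (A.dual σ') p) * A.tr ρ p := by
      intro ρ
      rw [Multiset.map_map]
      simp only [Function.comp_def]
      rw [Multiset.sum_map_mul_right, ← sum_eigs, hS', RSP_pow_inv hBAS]
    simp only [e2]
    rw [Multiset.sum_map_mul_left]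
    have e3 : (T.count A.one : ℂ) + ((T.filter fun ρ => ¬ ρ = A.one).map fun ρ =>
        A.tr ρ p).sum = A.tr x p * A.tr (A.dual x') p := by
      rw [← hT p, sum_eigs]
      conv_rhs => rw [← Multiset.filter_add_not (fun ρ => ρ = A.one) T]
      have e4 : T.filter (fun ρ => ρ = A.one) = Multiset.replicate (T.count A.one) A.one := by
        convert Multiset.filter_eq' T A.one
      rw [Multiset.map_add, Multiset.sum_add, e4]
      congr 1
      rw [Multiset.map_replicate, Multiset.sum_replicate]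
      unfold AData.tr
      rw [hone]
      simp
    simp only [Multiset.map_singleton, Multiset.sum_singleton, nsmul_eq_mul]
    linear_combination (-(A.tr σ p * A.tr (A.dual σ') p)) * e3
  have hord := A.ord_add _ _ hsum X
  rw [hord, hJ, Multiset.map_add, Multiset.sum_add, Multiset.map_nsmul, Multiset.sum_nsmul,
    Multiset.map_singleton, Multiset.sum_singleton, nsmul_eq_mul]
  have hnn : 0 ≤ (((T.filter fun ρ => ¬ ρ = A.one).bind fun ρ =>
      S.map fun y => (y, A.dual ρ)).map fun c => A.ord c.1 c.2 X).sum := by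
    refine Multiset.sum_nonneg fun z hz => ?_
    obtain ⟨⟨y, d⟩, hc, rfl⟩ := Multiset.mem_map.1 hz
    obtain ⟨ρ, hρ, hc⟩ := Multiset.mem_bind.1 hc
    obtain ⟨y', hy, hc⟩ := Multiset.mem_map.1 hc
    obtain ⟨rfl, rfl⟩ := Prod.mk.inj hc
    rw [Multiset.mem_filter] at hρ
    obtain ⟨a, ha, ha1⟩ := hT1 ρ hρ.1 hρ.2
    refine A.ord_hol _ _ (fun r hr => ?_) X
    replace hr : A.dual ρ = A.mul (A.nrm r) y' := hr
    have h3 : a⁻¹ ∈ A.eig (A.dual ρ) ⟨v, t, 1⟩ := by
      rw [hdual]
      exact Multiset.mem_map_of_mem _ ha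
    rw [hr, hmul _ _ _ (A.deg_nrm r), Multiset.mem_map] at h3
    obtain ⟨b, hb, hb1⟩ := h3
    rw [hS1 y' hy b hb] at hb1
    have h4 : A.tr (A.nrm r) ⟨v, t, 1⟩ = 1 := by
      unfold AData.tr
      rw [hnrm]
      simp [hab]
    rw [h4, mul_one] at hb1
    exact ha1 (by rw [← inv_inv a, ← hb1, inv_one])
  linarith

open Classical in
theorem s_RSP (hRSA : S_RSA) (hBAS : S_BAS) (hEXP : S_EXP) (hIND : S_IND) (hTEN : S_TEN) :
    S_RSP := by
  intro A F v t hsym hab hF ι s x hx hT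
  have hbas := hBAS A
  obtain ⟨hcard, hne, hpow, hone, hdual, hmul, hdet, hnrm, -⟩ := hbas
  obtain ⟨hexp1, hexpd, hexpm, -⟩ := hEXP A
  have key : ∀ σ i, ∃ w, σ ∈ F → i ∈ s → (∀ p, A.tr w p = A.tr σ p * A.tr (x i) p) ∧
      A.expo w = A.expo σ := by
    intro σ i
    by_cases hσ : σ ∈ F
    swap
    · exact ⟨A.one, fun h => absurd h hσ⟩
    by_cases hi : i ∈ s
    swap
    · exact ⟨A.one, fun _ h => absurd h hi⟩
    obtain ⟨Q, hQ0⟩ := hTEN A hsym {σ} {x i}
    have hQ : ∀ p, (A.eigs Q p).sum = A.tr σ p * A.tr (x i) p := by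
      intro p
      rw [hQ0 p, eigs_singleton, eigs_singleton]
      rfl
    have hdeg1 : ∀ z : A.Cusp, A.tr z ⟨v, 1, 1⟩ = A.deg z := by
      intro z
      have h1 := hpow z ⟨v, 1, 1⟩ 0
      have h2 : AData.Pt.pow (A := A.toAData) ⟨v, 1, 1⟩ 0 = ⟨v, 1, 1⟩ := by
        simp [AData.Pt.pow]
      rw [h2] at h1
      unfold AData.tr
      rw [h1]
      simp [hcard]
    have hQne : Q ≠ 0 := by
      intro h0
      have h1 := hQ ⟨v, 1, 1⟩
      rw [h0, hdeg1, hdeg1] at h1
      simp only [AData.eigs, Multiset.map_zero, Multiset.sum_zero] at h1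
      have h2 := A.deg_pos σ
      have h3 := A.deg_pos (x i)
      have h4 : (A.deg σ : ℂ) * A.deg (x i) ≠ 0 := by
        refine mul_ne_zero ?_ ?_ <;> · rw [Nat.cast_ne_zero]; omega
      exact h4 h1.symm
    obtain ⟨T, hT0, hT1, -, hT2⟩ := hT i hi i hi
    have hT1 := hT1 rfl
    have hmain := fun X => RSP_main hBAS hTEN A hsym v t hab σ σ (x i) (x i) (hF σ hσ) (hF σ hσ)
      T hT0 hT2 Q Q hQ hQ X
    rw [hT1] at hmain
    have hrsa := hRSA A σ (x i) Q (hx i hi) hQ
    -- the largest exponent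
    obtain ⟨w₀, hw₀, hmax⟩ : ∃ w₀ ∈ Q, ∀ w ∈ Q, A.expo w ≤ A.expo w₀ := by
      obtain ⟨w, hw⟩ := Multiset.exists_mem_of_ne_zero hQne
      obtain ⟨w₀, h0, h1⟩ := Finset.exists_max_image Q.toFinset A.expo ⟨w, by simpa using hw⟩
      exact ⟨w₀, by simpa using h0, fun w hw => h1 w (by simpa using hw)⟩
    have hrefl : ∀ w ∈ Q, A.mul (A.nrm (2 * (A.expo σ - A.expo w))) w ∈ Q := by
      intro w hw
      have h0 := Multiset.mem_map_of_mem
        (fun w => A.mul (A.nrm (2 * (A.expo σ - A.expo w))) w) hw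
      rw [hrsa] at h0
      exact h0
    have hmin : ∀ w ∈ Q, 2 * A.expo σ - A.expo w₀ ≤ A.expo w := by
      intro w hw
      have := hmax _ (hrefl w hw)
      rw [hexpm] at this
      linarith
    have hx0 : A.expo w₀ ≤ A.expo σ := by
      by_contra hlt
      push Not at hlt
      set X : ℝ := 1 + 2 * (A.expo w₀ - A.expo σ) with hX
      have h1 := hmain X
      have h2 : A.ord σ σ X = 0 := by
        refine A.ord_zero _ _ _ (by rw [hX]; linarith) fun he => ?_
        have := congrArg A.expo he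
        rw [hexpm] at this
        rw [hX] at this
        linarith
      have h3 : ((Q.bind fun w => Q.map fun w' => (w, w')).map
          fun c => A.ord c.1 c.2 X).sum ≤ -1 := by
        refine RSP_le _ _ ?_ (A.mul (A.nrm (2 * (A.expo σ - A.expo w₀))) w₀, w₀) ?_ ?_
        · rintro ⟨w, w'⟩ hc
          obtain ⟨w1, hw1, hc⟩ := Multiset.mem_bind.1 hc
          obtain ⟨w2, hw2, hc⟩ := Multiset.mem_map.1 hc
          obtain ⟨rfl, rfl⟩ := Prod.mk.inj hc
          have h4 : 1 ≤ X + A.expo w1 - A.expo w2 := by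
            have := hmin w1 hw1
            have := hmax w2 hw2
            rw [hX]
            linarith
          by_cases h5 : w2 = A.mul (A.nrm (X - 1)) w1
          · have := A.ord_pole w1 w2 X h4 h5
            simp only
            omega
          · have := A.ord_zero w1 w2 X h4 h5
            simp only
            omega
        · refine Multiset.mem_bind.2 ⟨_, hrefl w₀ hw₀, ?_⟩
          exact Multiset.mem_map.2 ⟨w₀, hw₀, rfl⟩
        · refine le_of_eq (A.ord_pole _ _ X ?_ ?_)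
          · rw [hexpm, hX]
            linarith
          · rw [RSP_mul hBAS hIND]
            have : X - 1 + 2 * (A.expo σ - A.expo w₀) = 0 := by rw [hX]; ring
            rw [this, RSP_mul0 hBAS hIND]
      rw [h2] at h1
      push_cast at h1
      linarith
    have hexp : ∀ w ∈ Q, A.expo w = A.expo σ := by
      intro w hw
      have h1 := hmin w hw
      have h2 := hmax w hw
      have h3 := hmin w₀ hw₀
      linarith
    have hcard1 : Q.card ≤ 1 := by
      have h1 := hmain 1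
      have h2 : A.ord σ σ 1 = -1 := by
        refine A.ord_pole _ _ _ (by linarith) ?_
        rw [sub_self, RSP_mul0 hBAS hIND]
      rw [h2, RSP_bind] at h1
      have h3 : (Q.map fun w => (Q.map fun w' => A.ord w w' 1).sum).sum ≤
          (Q.map fun w => (Q.map fun w' => A.ord w w' 1).sum).card • (-1 : ℤ) := by
        refine Multiset.sum_le_card_nsmul _ _ fun z hz => ?_
        obtain ⟨w, hw, rfl⟩ := Multiset.mem_map.1 hz
        refine RSP_le Q (fun w' => A.ord w w' 1) ?_ w hw ?_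
        · intro w' hw'
          have h4 : 1 ≤ 1 + A.expo w - A.expo w' := by
            rw [hexp w hw, hexp w' hw']
            linarith
          by_cases h5 : w' = A.mul (A.nrm (1 - 1)) w
          · have := A.ord_pole w w' 1 h4 h5
            omega
          · have := A.ord_zero w w' 1 h4 h5
            omega
        · refine le_of_eq (A.ord_pole w w 1 (by linarith) ?_)
          rw [sub_self, RSP_mul0 hBAS hIND]
      rw [Multiset.card_map] at h3
      simp only [nsmul_eq_mul] at h3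
      push_cast at h1
      omega
    have hQ1 : Q.card = 1 := by
      have := Multiset.card_pos.2 hQne
      omega
    obtain ⟨w, rfl⟩ := Multiset.card_eq_one.1 hQ1
    refine ⟨w, fun _ _ => ⟨fun p => ?_, hexp w (by simp)⟩⟩
    rw [← hQ p, eigs_singleton]
    rfl
  choose w hw using key
  refine ⟨w, fun σ hσ i hi => (hw σ i hσ hi).1, ?_⟩
  intro σ hσ σ' hσ' i hi j hj heq
  obtain ⟨T, hT0, hT1, hT3, hT2⟩ := hT i hi j hj
  have h1 := RSP_main hBAS hTEN A hsym v t hab σ σ' (x i) (x j) (hF σ hσ) (hF σ' hσ')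
    T hT0 hT2 {w σ i} {w σ' j} (by
      intro p
      rw [eigs_singleton]
      exact (hw σ i hσ hi).1 p) (by
      intro p
      rw [eigs_singleton]
      exact (hw σ' j hσ' hj).1 p) 1
  have h2 : A.ord (w σ i) (w σ' j) 1 = -1 := by
    refine A.ord_pole _ _ _ (by rw [heq]; linarith) ?_
    rw [sub_self, RSP_mul0 hBAS hIND, heq]
  simp only [Multiset.singleton_bind, Multiset.map_singleton, Multiset.sum_singleton] at h1
  rw [h2] at h1
  have h3 : A.expo σ = A.expo σ' := by
    rw [← (hw σ i hσ hi).2, ← (hw σ' j hσ' hj).2, heq]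
  have h4 : 1 ≤ 1 + A.expo σ - A.expo σ' := by rw [h3]; linarith
  by_cases hij : i = j
  · refine ⟨?_, hij⟩
    by_contra hne'
    have h5 : A.ord σ σ' 1 = 0 := by
      refine A.ord_zero _ _ _ h4 fun h6 => hne' ?_
      rw [sub_self, RSP_mul0 hBAS hIND] at h6
      exact h6.symm
    rw [h5] at h1
    omega
  · exfalso
    rw [hT3 hij] at h1
    push_cast at h1
    omega

end Pool.H66.SYM
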